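import Mathlib

/-!
# Strict quasi-Lindelöf spaces with large piecewise weak Lindelöf number
-/

open Set Cardinal

namespace Pool.Agent.Results.MP_a1e9e0_gt.Example

/-- Strict quasi-Lindelöf spaces. -/
def StrictQL (X : Type) [TopologicalSpace X] : Prop :=
  ∀ (F : Set X), IsClosed F → ∀ (𝒰 : Set (Set X)), (∀ U ∈ 𝒰, IsOpen U) → F ⊆ ⋃₀ 𝒰 →
    ∀ 𝒟 : ℕ → Set (Set X), (⋃ n, 𝒟 n) = 𝒰 →
      ∃ 𝒱 : ℕ → Set (Set X), (∀ n, 𝒱 n ⊆ 𝒟 n ∧ (𝒱 n).Countable) ∧
        F ⊆ ⋃ n, closure (⋃₀ 𝒱 n)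

/-- `pwL_c(X) ≤ κ`. -/
def PwLcLe (X : Type) [TopologicalSpace X] (κ : Cardinal.{0}) : Prop :=
  ∀ (F : Set X), IsClosed F → ∀ (𝒰 : Set (Set X)), (∀ U ∈ 𝒰, IsOpen U) → F ⊆ ⋃₀ 𝒰 →
    ∀ (ι : Type) (𝒟 : ι → Set (Set X)), (⋃ i, 𝒟 i) = 𝒰 →
      ∃ 𝒱 : ι → Set (Set X), (∀ i, 𝒱 i ⊆ 𝒟 i ∧ #(𝒱 i) ≤ κ) ∧
        F ⊆ ⋃ i, closure (⋃₀ 𝒱 i)

/-- Partial functions from `ℝ` to `Y` with uncountable domain. -/
def P (Y : Type) : Type := {p : ℝ → Option Y // ¬ {i | p i ≠ none}.Countable}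

variable {Y : Type}

instance : TopologicalSpace (P Y) where
  IsOpen U := ∀ p ∈ U, ∃ a : Finset ℝ, (∀ i ∈ a, p.1 i ≠ none) ∧
    ∀ q : P Y, (∀ i ∈ a, q.1 i = p.1 i) → q ∈ U
  isOpen_univ := fun _ _ => ⟨∅, fun i hi => absurd hi (Finset.notMem_empty i), fun _ _ => trivial⟩
  isOpen_inter U V hU hV p hp := by
    classical
    obtain ⟨a, ha, haU⟩ := hU p hp.1
    obtain ⟨b, hb, hbV⟩ := hV p hp.2
    refine ⟨a ∪ b, fun i hi => ?_, fun q hq => ⟨haU q fun i hi => ?_, hbV q fun i hi => ?_⟩⟩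
    · rcases Finset.mem_union.1 hi with h | h
      · exact ha i h
      · exact hb i h
    · exact hq i (Finset.mem_union_left _ hi)
    · exact hq i (Finset.mem_union_right _ hi)
  isOpen_sUnion 𝒰 h𝒰 p hp := by
    obtain ⟨U, hU, hpU⟩ := hp
    obtain ⟨a, ha, haU⟩ := h𝒰 U hU p hpU
    exact ⟨a, ha, fun q hq => ⟨U, hU, haU q hq⟩⟩

lemma isOpen_iff' {U : Set (P Y)} : IsOpen U ↔ ∀ p ∈ U, ∃ a : Finset ℝ,
    (∀ i ∈ a, p.1 i ≠ none) ∧ ∀ q : P Y, (∀ i ∈ a, q.1 i = p.1 i) → q ∈ U := Iff.rfl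

/-- the subbasic open sets -/
def B (i : ℝ) (y : Y) : Set (P Y) := {p | p.1 i = some y}

lemma isOpen_B (i : ℝ) (y : Y) : IsOpen (B i y) := by
  intro p hp
  have hp' : p.1 i = some y := hp
  refine ⟨{i}, fun j hj => ?_, fun q hq => ?_⟩
  · rw [Finset.mem_singleton.1 hj, hp']; exact Option.some_ne_none y
  · exact (hq i (Finset.mem_singleton_self i)).trans hp'

instance : T0Space (P Y) := by
  refine ⟨fun p q h => ?_⟩
  refine Subtype.ext (funext fun i => ?_)
  rcases hp : p.1 i with _ | y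
  · rcases hq : q.1 i with _ | z
    · rfl
    · have := (h.mem_open_iff (isOpen_B i z)).2 hq
      change p.1 i = some z at this
      rw [hp] at this
      exact absurd this.symm (Option.some_ne_none z)
  · exact ((h.mem_open_iff (isOpen_B i y)).1 hp).symm

/-- closed sets are closed under restriction -/
lemma closed_restrict {F : Set (P Y)} (hF : IsClosed F) {p q : P Y} (hp : p ∈ F)
    (h : ∀ i, q.1 i ≠ none → q.1 i = p.1 i) : q ∈ F := by
  by_contra hq
  obtain ⟨a, ha, haU⟩ := hF.isOpen_compl q hq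
  exact haU p (fun i hi => (h i (ha i hi)).symm) hp

/-- a total function is a point -/
def tot (f : ℝ → Y) : P Y := ⟨fun i => some (f i), by
  intro h
  refine not_countable_univ (α := ℝ) (h.mono fun i _ => ?_)
  exact Option.some_ne_none _⟩

theorem strictQL [Nonempty Y] : StrictQL (P Y) := by
  classical
  intro F hF 𝒰 h𝒰 hcov 𝒟 h𝒟
  rcases F.eq_empty_or_nonempty with rfl | ⟨p, hp⟩
  · exact ⟨fun _ => ∅, fun n => ⟨empty_subset _, countable_empty⟩, empty_subset _⟩
  -- one of the pieces is rich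
  obtain ⟨n, hn⟩ : ∃ n, ∀ b : Finset ℝ, ∃ W ∈ 𝒟 n, ∃ a : Finset ℝ, Disjoint a b ∧
      ∃ σ : ℝ → Option Y, (∀ i ∈ a, σ i ≠ none) ∧
        ∀ q : P Y, (∀ i ∈ a, q.1 i = σ i) → q ∈ W := by
    by_contra hcon
    push Not at hcon
    choose b hb using hcon
    set J : Set ℝ := ⋃ n, (b n : Set ℝ) with hJ
    have hJc : J.Countable := countable_iUnion fun n => (b n).countable_toSet
    have hq : ¬ {i | (if i ∈ J then none else p.1 i) ≠ none}.Countable := by
      intro hc
      refine p.2 ((hc.union hJc).mono fun i hi => ?_)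
      by_cases hiJ : i ∈ J
      · exact Or.inr hiJ
      · refine Or.inl ?_
        change (if i ∈ J then none else p.1 i) ≠ none
        rw [if_neg hiJ]; exact hi
    set q : P Y := ⟨fun i => if i ∈ J then none else p.1 i, hq⟩ with hqdef
    have hqJ : ∀ i, q.1 i ≠ none → i ∉ J := by
      intro i hi hiJ
      refine hi ?_
      change (if i ∈ J then none else p.1 i) = none
      rw [if_pos hiJ]
    have hqF : q ∈ F := by
      refine closed_restrict hF hp fun i hi => ?_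
      change (if i ∈ J then none else p.1 i) = p.1 i
      rw [if_neg (hqJ i hi)]
    obtain ⟨W, hW, hqW⟩ := hcov hqF
    have hWo := h𝒰 W hW
    rw [← h𝒟] at hW
    obtain ⟨n, hWn⟩ := mem_iUnion.1 hW
    obtain ⟨a, ha, haW⟩ := hWo q hqW
    obtain ⟨r, hr, hrW⟩ := hb n W hWn a (by
      rw [Finset.disjoint_left]
      intro i hi hib
      exact hqJ i (ha i hi) (mem_iUnion.2 ⟨n, hib⟩)) q.1 ha
    exact hrW (haW r hr)
  choose W hWD a hab σ hσ hσW using hn
  set Bk : ℕ → Finset ℝ := fun k => Nat.rec ∅ (fun _ b => b ∪ a b) k with hBk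
  have hBs : ∀ k, Bk (k + 1) = Bk k ∪ a (Bk k) := fun k => rfl
  have hBm : Monotone Bk := monotone_nat_of_le_succ fun k => by
    rw [hBs]; exact Finset.subset_union_left
  refine ⟨fun m => if m = n then range (fun k => W (Bk k)) else ∅, fun m => ?_, ?_⟩
  · by_cases hm : m = n
    · subst hm
      simp only [if_pos rfl]
      refine ⟨?_, countable_range _⟩
      rintro _ ⟨k, rfl⟩
      exact hWD _
    · simp only [if_neg hm]
      exact ⟨empty_subset _, countable_empty⟩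
  · intro r _
    refine mem_iUnion.2 ⟨n, ?_⟩
    simp only [if_pos rfl]
    rw [mem_closure_iff]
    intro O hO hrO
    obtain ⟨b, hb, hbO⟩ := hO r hrO
    -- a stage with domain disjoint from `b`
    obtain ⟨K, hK⟩ : ∃ K, ∀ i ∈ b, (∃ k, i ∈ Bk k) → i ∈ Bk K := by
      clear hb hbO
      induction b using Finset.induction_on with
      | empty => exact ⟨0, fun i hi => absurd hi (Finset.notMem_empty _)⟩
      | insert c G _ ih =>
        obtain ⟨n, hn⟩ := ih
        by_cases hc : ∃ m, c ∈ Bk m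
        · obtain ⟨m, hm⟩ := hc
          refine ⟨max n m, fun i hi hex => ?_⟩
          rcases Finset.mem_insert.1 hi with h | h
          · rw [h]; exact hBm (le_max_right _ _) hm
          · exact hBm (le_max_left _ _) (hn i h hex)
        · refine ⟨n, fun i hi hex => ?_⟩
          rcases Finset.mem_insert.1 hi with h | h
          · rw [h] at hex; exact absurd hex hc
          · exact hn i h hex
    have hdis : ∀ i ∈ a (Bk K), i ∉ b := by
      intro i hi hib
      have h1 : i ∈ Bk K := hK i hib ⟨K + 1, by rw [hBs]; exact Finset.mem_union_right _ hi⟩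
      exact Finset.disjoint_left.1 (hab (Bk K)) hi h1
    have hy : ∀ i, ∃ y : Y, (i ∈ b → r.1 i = some y) ∧ (i ∈ a (Bk K) → σ (Bk K) i = some y) := by
      intro i
      by_cases hib : i ∈ b
      · obtain ⟨y, hy⟩ := Option.ne_none_iff_exists'.1 (hb i hib)
        exact ⟨y, fun _ => hy, fun hia => absurd hib (hdis i hia)⟩
      · by_cases hia : i ∈ a (Bk K)
        · obtain ⟨y, hy⟩ := Option.ne_none_iff_exists'.1 (hσ (Bk K) i hia)
          exact ⟨y, fun h => absurd h hib, fun _ => hy⟩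
        · exact ⟨Classical.arbitrary Y, fun h => absurd h hib, fun h => absurd h hia⟩
    choose f hf1 hf2 using hy
    refine ⟨tot f, hbO _ fun i hi => (hf1 i hi).symm, W (Bk K), ⟨K, rfl⟩, ?_⟩
    exact hσW (Bk K) _ fun i hi => (hf2 i hi).symm

theorem not_pwLcLe {κ : Cardinal.{0}} (hκ : κ < #Y) : ¬ PwLcLe (P Y) κ := by
  classical
  intro h
  have hne : ∀ p : P Y, ∃ i, p.1 i ≠ none := by
    intro p
    by_contra hcon
    push Not at hcon
    refine p.2 ?_
    have : {i | p.1 i ≠ none} = ∅ := by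
      ext i; simp [hcon i]
    rw [this]; exact countable_empty
  obtain ⟨𝒱, h𝒱, hcov⟩ := h univ isClosed_univ (⋃ i, range (B (Y := Y) i))
    (by
      intro U hU
      obtain ⟨i, y, rfl⟩ := mem_iUnion.1 hU
      exact isOpen_B i y)
    (by
      intro p _
      obtain ⟨i, hi⟩ := hne p
      obtain ⟨y, hy⟩ := Option.ne_none_iff_exists'.1 hi
      exact ⟨B i y, mem_iUnion.2 ⟨i, y, rfl⟩, hy⟩) ℝ (fun i => range (B i)) rfl
  have hinj : ∀ i, Function.Injective (B (Y := Y) i) := by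
    intro i y z hyz
    have h1 : tot (fun _ => y) ∈ B i y := rfl
    rw [hyz] at h1
    have h2 : some y = some z := h1
    exact Option.some_injective _ h2
  have hex : ∀ i, ∃ y, B i y ∉ 𝒱 i := by
    intro i
    by_contra hcon
    push Not at hcon
    have h1 : #Y ≤ #(𝒱 i) := mk_le_of_injective (f := fun y => (⟨B i y, hcon y⟩ : 𝒱 i))
      fun y z hyz => hinj i (congrArg Subtype.val hyz)
    exact absurd (h1.trans (h𝒱 i).2) (not_le.2 hκ)
  choose y hy using hex
  obtain ⟨i, hi⟩ := mem_iUnion.1 (hcov (mem_univ (tot y)))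
  obtain ⟨q, hq, U, hU, hqU⟩ := mem_closure_iff.1 hi (B i (y i)) (isOpen_B i (y i)) rfl
  obtain ⟨z, rfl⟩ := (h𝒱 i).1 hU
  have h1 : q.1 i = some (y i) := hq
  have h2 : q.1 i = some z := hqU
  rw [h1] at h2
  rw [← Option.some_injective _ h2] at hU
  exact hy i hU

/-- For every cardinal `κ` there is a strict quasi-Lindelöf (`T₀`) space `X` with
`pwL_c(X) > κ`. -/
theorem result (κ : Cardinal.{0}) : ∃ (X : Type) (_ : TopologicalSpace X), T0Space X ∧
    StrictQL X ∧ ¬ PwLcLe X κ := by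
  have h1 : κ < #(Set κ.out) := by
    rw [mk_set, mk_out]; exact cantor κ
  exact ⟨P (Set κ.out), inferInstance, inferInstance, strictQL, not_pwLcLe h1⟩

end Pool.Agent.Results.MP_a1e9e0_gt.Example
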